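import Mathlib
import Pool.Agent.H.MP_d888c7_an.A

set_option autoImplicit false
open Filter Topology Set MeasureTheory

namespace Pool.Agent.Results.MP_d888c7_an.NoBV

/-- The class of weights. -/
def InOmega (ω : ℝ → ℝ) : Prop :=
  ContinuousOn ω (Icc 0 1) ∧ (∀ x ∈ Icc (0 : ℝ) 1, 0 < ω x) ∧ ω 0 = 1 ∧
    IntervalIntegrable ω volume 0 1 ∧ IntervalIntegrable (fun x => |1 - ω x| * x⁻¹) volume 0 1

/-- The sequence of ratios of weighted moments. -/
noncomputable def lam (ω₁ ω₂ : ℝ → ℝ) (n : ℕ) : ℝ :=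
  if n = 0 then 1
  else (∫ x in (0 : ℝ)..1, ω₁ x * x ^ (n - 1)) * (∫ x in (0 : ℝ)..1, ω₂ x * x ^ (n - 1))⁻¹

/-- The Riemann-Stieltjes integral of `f` against `β` over `[0,1]` exists and equals `I`. -/
def HasRS (f β : ℝ → ℝ) (I : ℝ) : Prop :=
  ∀ ε > 0, ∃ δ > 0, ∀ (N : ℕ) (t ξ : ℕ → ℝ), t 0 = 0 → t N = 1 →
    (∀ i < N, t i ≤ ξ i ∧ ξ i ≤ t (i + 1) ∧ t (i + 1) - t i < δ) →
      |∑ i ∈ Finset.range N, f (ξ i) * (β (t (i + 1)) - β (t i)) - I| < ε

open Pool.Agent.H.MP_d888c7_an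

lemma om_in {m : ℝ} (h0 : 0 < m) (h1 : m < 1) : InOmega (om m) := by
  have hc : Continuous (om m) := by unfold om; fun_prop
  refine ⟨hc.continuousOn, fun x hx => ?_, by simp [om], hc.intervalIntegrable _ _, ?_⟩
  · have : 0 ≤ m * (1 - x) ^ 3 := mul_nonneg h0.le (pow_nonneg (by linarith [hx.2]) _)
    unfold om; linarith
  · have hc2 : Continuous fun x : ℝ => |m * (3 - 3 * x + x ^ 2)| := by fun_prop
    refine (hc2.intervalIntegrable 0 1).congr fun x hx => ?_
    rw [uIoc_of_le zero_le_one] at hx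
    have : 1 - om m x = m * (3 - 3 * x + x ^ 2) * x := by unfold om; ring
    simp only [this]
    rw [abs_mul _ x, abs_of_pos hx.1, mul_inv_cancel_right₀ hx.1.ne']

lemma om_anti {m : ℝ} (h0 : 0 < m) : AntitoneOn (om m) (Icc 0 1) := by
  intro x _ y hy hxy
  have : (1 - y) ^ 3 ≤ (1 - x) ^ 3 := pow_le_pow_left₀ (by linarith [hy.2]) (by linarith) _
  unfold om
  nlinarith

lemma rs_tendsto {f β : ℝ → ℝ} {I : ℝ} (h : HasRS f β I) :
    Tendsto (fun N : ℕ => ∑ i ∈ Finset.range (N + 1), f (i / ((N : ℝ) + 1)) *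
      (β (((i + 1 : ℕ) : ℝ) / ((N : ℝ) + 1)) - β (i / ((N : ℝ) + 1)))) atTop (𝓝 I) := by
  rw [Metric.tendsto_atTop]
  intro ε hε
  obtain ⟨δ, hδ, h⟩ := h ε hε
  obtain ⟨N0, hN0⟩ := exists_nat_one_div_lt hδ
  refine ⟨N0, fun N hN => h (N + 1) (fun i => i / ((N : ℝ) + 1)) (fun i => i / ((N : ℝ) + 1))
    (by simp) (by push_cast; field_simp) fun i _ => ⟨le_rfl, ?_, ?_⟩⟩
  · push_cast; gcongr; linarith
  · refine lt_of_le_of_lt ?_ hN0
    have : (N0 : ℝ) ≤ N := by exact_mod_cast hN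
    push_cast
    rw [← sub_div, add_sub_cancel_left]
    gcongr

theorem result : ∃ ω₁ ω₂ : ℝ → ℝ, InOmega ω₁ ∧ InOmega ω₂ ∧
    AntitoneOn ω₁ (Icc 0 1) ∧ AntitoneOn ω₂ (Icc 0 1) ∧
    AntitoneOn (fun x => ω₁ x / ω₂ x) (Icc 0 1) ∧
    ¬ ∃ β : ℝ → ℝ, BoundedVariationOn β (Icc 0 1) ∧
      ∀ n : ℕ, HasRS (fun x => x ^ n) β (lam ω₁ ω₂ n) := by
  have i2 := om_in (m := 35 / 36) (by norm_num) (by norm_num)
  refine ⟨om (71 / 72), om (35 / 36), om_in (by norm_num) (by norm_num), i2,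
    om_anti (by norm_num), om_anti (by norm_num), ?_, ?_⟩
  · intro x hx y hy hxy
    have : (1 - y) ^ 3 ≤ (1 - x) ^ 3 := pow_le_pow_left₀ (by linarith [hy.2]) (by linarith) _
    simp only
    rw [div_le_div_iff₀ (i2.2.1 y hy) (i2.2.1 x hx)]
    unfold om
    nlinarith
  · rintro ⟨β, hβ, h⟩
    refine no_functional (lam (om (71 / 72)) (om (35 / 36))) (fun n => ?_)
      (eVariationOn β (Icc 0 1)).toReal ENNReal.toReal_nonneg fun d a M hM => ?_
    · rcases n with _ | n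
      · simp [lam, Dn]; norm_num
      · have := Dn_pos (n + 1)
        simp only [lam, Nat.succ_ne_zero, if_false, Nat.add_sub_cancel, mom]
        field_simp
        ring
    · have t1 := tendsto_finsetSum (Finset.range d) fun n _ => (rs_tendsto (h n)).const_mul (a n)
      refine le_of_tendsto' t1.abs fun N => ?_
      have hmem : ∀ i ≤ N + 1, (i : ℝ) / ((N : ℝ) + 1) ∈ Icc (0 : ℝ) 1 := fun i hi =>
        ⟨by positivity, by rw [div_le_one (by positivity)]; exact_mod_cast hi⟩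
      have hv := eVariationOn.sum_le_of_monotoneOn_Iic (f := β) (s := Icc 0 1) (n := N + 1)
        (u := fun i => i / ((N : ℝ) + 1)) (fun i _ j _ hij => by
          have : (i : ℝ) ≤ j := by exact_mod_cast hij
          simp only; gcongr) hmem
      have hv2 := ENNReal.toReal_mono hβ hv
      rw [ENNReal.toReal_sum fun i _ => edist_ne_top _ _] at hv2
      simp only [← dist_edist, Real.dist_eq] at hv2
      have hM0 : 0 ≤ M := (abs_nonneg _).trans (hM 0 ⟨le_rfl, zero_le_one⟩)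
      simp only [Finset.mul_sum, ← mul_assoc]
      rw [Finset.sum_comm]
      simp only [← Finset.sum_mul]
      refine (Finset.abs_sum_le_sum_abs _ _).trans
        (le_trans ?_ (mul_le_mul_of_nonneg_left hv2 hM0))
      rw [Finset.mul_sum]
      refine Finset.sum_le_sum fun i hi => ?_
      rw [abs_mul]
      exact mul_le_mul_of_nonneg_right
        (hM _ (hmem i (Finset.mem_range.1 hi).le)) (abs_nonneg _)

end Pool.Agent.Results.MP_d888c7_an.NoBV
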